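import Pool.Agent.H891R2.VS.Dom
import Pool.Agent.R811.Abc.General

set_option autoImplicit false

/-! Vassiliev invariants of diagrams with `f ≠ 1`: the order in terms of the size of the diagram -/

namespace Pool.Agent.R811.VS

open Finset LaurentPolynomial Pool.Agent.H891R2.Jones Pool.Agent.H891R2.MT Pool.Agent.H891R2.RF
  Pool.Agent.H832R3.VJ Pool.Agent.R811.Abc
open Pool.Agent.H891R2.MT.T4b (SIn SIn_d)

theorem card_parity (f : ℤ[T;T⁻¹]) (a n : ℤ) (M : ℕ) (hs : SIn f a (a + 2 * M)) (hp : Par n f) :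
    f.coeff.support.card ≤ M + 1 := by
  rw [← Finset.card_range (M + 1)]
  refine Finset.card_le_card_of_injOn (fun j => ((j - a) / 2).toNat) ?_ ?_
  · intro j hj
    have h1 := hs j (Finsupp.mem_support_iff.1 hj)
    simp only [Finset.coe_range, Set.mem_Iio]
    omega
  · intro j hj j' hj' h
    have h1 := hs j (Finsupp.mem_support_iff.1 hj)
    have h2 := hs j' (Finsupp.mem_support_iff.1 hj')
    have p1 := hp j (Finsupp.mem_support_iff.1 hj)
    have p2 := hp j' (Finsupp.mem_support_iff.1 hj')
    obtain ⟨x, hx⟩ := p1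
    obtain ⟨y, hy⟩ := p2
    simp only at h
    have h3 : (j - a) / 2 = (j' - a) / 2 := by
      have : ((((j - a) / 2).toNat : ℕ) : ℤ) = (((j' - a) / 2).toNat : ℕ) := by rw [h]
      rw [Int.toNat_of_nonneg (by omega), Int.toNat_of_nonneg (by omega)] at this
      exact this
    omega

theorem par_bracket {P : Type} (D : Diagram P) : Par D.crossings.length D.bracket := by
  unfold Diagram.bracket
  refine Par.sum _ _ fun s _ => ?_
  have h1 : Par (D.crossings.length : ℤ) (T (Diagram.weight s)) := Par.T _ (weight_par s)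
  have := h1.mul (Par.dd.pow (D.loops s - 1))
  rwa [add_zero] at this

theorem SIn_mul_T {f : ℤ[T;T⁻¹]} {a b m : ℤ} (h : SIn f a b) : SIn (T m * f) (m + a) (m + b) :=
  (SIn.T m).mul h

/-- the number of terms of the normalised bracket -/
theorem card_fPoly {P : Type} [Fintype P] [Nonempty P] (D : Diagram P) :
    D.fPoly.coeff.support.card ≤ D.crossings.length + 2 * (Fintype.card P - 1) + 1 := by
  have hp1 : 1 ≤ Fintype.card P := Fintype.card_pos
  obtain ⟨c, hc⟩ : ∃ c : ℕ, c = D.crossings.length := ⟨_, rfl⟩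
  obtain ⟨p, hp⟩ : ∃ p : ℕ, p = Fintype.card P - 1 := ⟨_, rfl⟩
  have h1 := SIn_bracket D (c := c) (p := p + 1) (by rw [hc]) (by omega) (by omega)
  have h2 := par_bracket D
  have h3 : SIn (T (-3 * D.writhe) * D.bracket) (-3 * D.writhe + -(c + 2 * (p + 1 - 1)))
      ((-3 * D.writhe + -(c + 2 * (p + 1 - 1))) + 2 * ((c + 2 * p : ℕ) : ℤ)) := by
    refine (SIn_mul_T h1).mono le_rfl ?_
    push_cast
    linarith
  have h4 : Par (-3 * D.writhe + D.crossings.length) (T (-3 * D.writhe) * D.bracket) :=
    (Par.T (-3 * D.writhe) (n := -3 * D.writhe) (by simp)).mul h2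
  rw [← hc, ← hp]
  unfold Diagram.fPoly
  by_cases hw : Even D.writhe
  · rw [if_pos hw, one_mul]
    exact card_parity _ _ _ _ h3 h4
  · rw [if_neg hw, neg_mul, one_mul, neg_mul]
    exact card_parity _ _ _ _ h3.neg h4.neg

/-- a diagram with `f ≠ 1` is separated from the unknot -/
theorem detect {P : Type} [Fintype P] [Nonempty P] (D : Diagram P) (h : D.fPoly ≠ 1) :
    Separated (D.crossings.length + 2 * Fintype.card P) ⟨P, inferInstance, D⟩ unknot := by
  have hp1 : 1 ≤ Fintype.card P := Fintype.card_pos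
  have hc := card_fPoly D
  have h0 := separated_of_ne (D.crossings.length + 2 * (Fintype.card P - 1) + 2)
    ⟨P, inferInstance, D⟩ unknot 1 one_ne_zero ?_ ?_
  · obtain ⟨n, hn, v, hv⟩ := h0
    exact ⟨n, by omega, v, hv⟩
  · rw [one_mul]
    refine (FinL.card_support_sub _ _).trans ?_
    have h2 : unknot.D.fPoly.coeff.support.card ≤ 1 := by
      rw [fPoly_unknot]
      have := Pool.Agent.H891R2.VS.card_support_le (1 : ℤ[T;T⁻¹]) 0 0 le_rfl (by
        intro j hj
        have h5 : (1 : ℤ[T;T⁻¹]).coeff j = if (0 : ℤ) = j then 1 else 0 := by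
          rw [← T_zero]; exact Finsupp.single_apply
        rw [h5] at hj
        by_cases h0 : (0 : ℤ) = j
        · omega
        · rw [if_neg h0] at hj; exact absurd rfl hj)
      simp
    have h3 : (⟨P, inferInstance, D⟩ : Dia).D.fPoly.coeff.support.card ≤
      D.crossings.length + 2 * (Fintype.card P - 1) + 1 := hc
    omega
  · rw [fPoly_unknot]; exact h

end Pool.Agent.R811.VS
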