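import Pool.Agent.R811.Cross.Closed
import Pool.Agent.H832R3.VJ.Fin

set_option autoImplicit false

/-! Vassiliev invariants of order two and the crossing changes of a shadow -/

namespace Pool.Agent.R811.VS

open Finset LaurentPolynomial Pool.Agent.H891R2.Jones Pool.Agent.H832R3.VJ Pool.Agent.R811.Cross

variable {n : ℕ} (G : Shadow n)

/-- the knot diagram `G.diagram s` with its set of marked points -/
def dia (s : Fin n → Bool) : Dia := ⟨Fin (2 * n), inferInstance, G.diagram s⟩

theorem F_of_not_separated (s : Fin n → Bool) (X : Dia) (h : ¬ Separated 2 (dia G s) X) :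
    F G s = moment 2 X.D.fPoly := by
  by_contra hne
  exact h ⟨2, le_rfl, fun X => moment 2 X.D.fPoly, isVassiliev_moment 2, hne⟩

open Classical in
/-- one quarter -/
theorem quarter2 {i j : Fin n} (h : G.Interlaced i j) (c : ℤ) :
    4 * (Finset.univ.filter (fun s : Fin n → Bool => F G s = c)).card ≤ 3 * 2 ^ n := by
  have hij := ne_of_interlaced G h
  set l : (Fin n → Bool) → ℤ := fun s => if F G s = c then 1 else 0 with hl
  have e0 : ((Finset.univ.filter (fun s : Fin n → Bool => F G s = c)).card : ℤ) =
      ∑ s, l s := by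
    rw [Finset.card_filter]; push_cast; rfl
  have e1 : ∑ x, l (Pool.Agent.R811.Cross.flip i x) = ∑ x, l x := Pool.Agent.R811.Cross.sum_flip i l
  have e2 : ∑ x, l (Pool.Agent.R811.Cross.flip j x) = ∑ x, l x := Pool.Agent.R811.Cross.sum_flip j l
  have e3 : ∑ x, l (Pool.Agent.R811.Cross.flip i (Pool.Agent.R811.Cross.flip j x)) = ∑ x, l x := by
    rw [sum_flip j (fun x => l (Pool.Agent.R811.Cross.flip i x))]; exact e1
  have key : ∑ x, (l x + l (Pool.Agent.R811.Cross.flip i x) + l (Pool.Agent.R811.Cross.flip j x) + l (Pool.Agent.R811.Cross.flip i (Pool.Agent.R811.Cross.flip j x))) ≤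
      ∑ _x : Fin n → Bool, (3 : ℤ) := by
    refine Finset.sum_le_sum fun x _ => ?_
    have hx : ¬ (F G x = c ∧ F G (Pool.Agent.R811.Cross.flip i x) = c ∧ F G (Pool.Agent.R811.Cross.flip j x) = c ∧
        F G (Pool.Agent.R811.Cross.flip i (Pool.Agent.R811.Cross.flip j x)) = c) := by
      rintro ⟨a1, a2, a3, a4⟩
      have hall : ∀ a b : Bool, F G (Function.update (Function.update x j b) i a) = c := by
        intro a b
        rcases upd_cases x j b with hb | hb
        · rw [hb]
          rcases upd_cases x i a with ha | ha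
          · rw [ha]; exact a1
          · rw [ha]; exact a2
        · rw [hb]
          rcases upd_cases (Pool.Agent.R811.Cross.flip j x) i a with ha | ha
          · rw [ha]; exact a3
          · rw [ha]; exact a4
      apply D2 G h x
      unfold D
      rw [hall, hall, hall, hall]
      ring
    exact four _ _ _ _ hx
  rw [Finset.sum_add_distrib, Finset.sum_add_distrib, Finset.sum_add_distrib, e1, e2, e3, ← e0] at key
  rw [Finset.sum_const, nsmul_eq_mul, card_cube, Fintype.card_fin] at key
  have : (4 * (Finset.univ.filter (fun s : Fin n → Bool => F G s = c)).card : ℤ) ≤ 3 * 2 ^ n := by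
    linarith
  exact_mod_cast this

open Classical in
theorem anti2 {ν : ℕ} (u w : Fin ν → Fin n) (hinj : Function.Injective (Sum.elim u w))
    (h : ∀ k, G.Interlaced (u k) (w k)) (c : ℤ) :
    ν * (Finset.univ.filter (fun s : Fin n → Bool => F G s = c)).card ^ 4 ≤ 162 * 16 ^ n := by
  have h1 := level (F G) c u w hinj (fun i j hij x y => D2_const G hij x y)
    (fun k x => by
      have hne := (ne_of_interlaced G (h k)).symm
      rw [D_comm hne.symm]
      exact D2 G (h k) x)
  rw [Fintype.card_fin] at h1
  have h3 : ν * (Finset.univ.filter (fun s => F G s = c)).card ^ 4 ≤ 162 * 16 ^ n := by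
    exact_mod_cast h1
  exact h3

end Pool.Agent.R811.VS
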