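import Pool.Agent.R811.VS.Detect

set_option autoImplicit false

/-! Vassiliev invariants separate diagrams with different normalised brackets -/

namespace Pool.Agent.R811.VS

open Finset LaurentPolynomial Pool.Agent.H891R2.Jones Pool.Agent.H891R2.MT Pool.Agent.H891R2.RF
  Pool.Agent.H832R3.VJ Pool.Agent.R811.Abc

theorem detect2 {P P' : Type} [Fintype P] [Nonempty P] [Fintype P'] [Nonempty P'] (D : Diagram P)
    (D' : Diagram P') (h : D.fPoly ≠ D'.fPoly) :
    Separated (D.crossings.length + 2 * Fintype.card P +
      (D'.crossings.length + 2 * Fintype.card P')) ⟨P, inferInstance, D⟩ ⟨P', inferInstance, D'⟩ := by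
  have hp1 : 1 ≤ Fintype.card P := Fintype.card_pos
  have hp1' : 1 ≤ Fintype.card P' := Fintype.card_pos
  have hc := card_fPoly D
  have hc' := card_fPoly D'
  obtain ⟨n, hn, v, hv⟩ := separated_of_ne (D.crossings.length + 2 * (Fintype.card P - 1) + 1 +
    (D'.crossings.length + 2 * (Fintype.card P' - 1) + 1))
    ⟨P, inferInstance, D⟩ ⟨P', inferInstance, D'⟩ 1 one_ne_zero (by
      rw [one_mul]
      refine (FinL.card_support_sub _ _).trans ?_
      exact Nat.add_le_add hc hc') h
  exact ⟨n, by omega, v, hv⟩

end Pool.Agent.R811.VS
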